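import Mathlib
import Pool.Agent.FC640.Final

/-!
# An explicit flat circle bundle over a closed oriented 4-manifold with non-zero squared Euler class

The manifold `M` and the flat bundle `bundle` are given by explicit formulas.

* **The expansion maps** (`Circle`, `Labels`).  Let `θ` be the smooth transition function of Mathlib
  (`0` for `x ≤ 0`, `1` for `1 ≤ x`).  On the circle of length `n` divided into `n` unit leaves, the
  expansion of one leaf `[a, a+1]` is `x ↦ x + θ (x - a)`, a smooth diffeomorphism onto the circle
  of length `n + 1`, equal to the identity or to a translation off the leaf.  Expansions of different
  leaves commute.  `labL` is such an expansion of several leaves, from a circle of length `7 + p` to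
  one of length `7 + p + d`, both marked (by a leaf) and rescaled to length one.
* **The cycle** (`Data`, `Build`).  `theCycle` consists of `120 * 55440` signed 4-simplices
  `(u, m)`: `u` is one of the `24` orders in which the four given leaves of the circle of length
  `7` of one of five given types are expanded, and `m` marks a leaf in each of the five circles of
  lengths `7, 8, 9, 10, 11` which occur; the edge `p < q` is labelled by the expansion map from the
  circle of length `7 + p` to that of length `7 + q`.  An explicit pairing of the facets
  (neighbours `Nf`, rotations `Rf`) preserves the labels and reverses the signs.
* **The manifold** (`Mirror`, `Resolve`).  The cycle is resolved as in the work of Gaifullin: `M` is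
  glued from 4-dimensional permutohedra, one for every state; a state is a simplex together with an
  involution of the set of simplices for every proper non-empty set of colours and four bits.  `M` is
  the poset of cells of the dual cube complex, whose vertices are the states.
-/

namespace Pool.Agent.Results.MP_d4615f_gt.ExplicitFlatBundle

open Pool.Agent.FC640

/-- **Theorem.** `M` is a closed cubical 4-manifold (the face poset of a finite cube complex in which
the link of each vertex is the barycentric subdivision of the boundary of the 4-simplex), connected
and oriented, and the square of the Euler class of the flat circle bundle `bundle` over `M`, whose
holonomies are orientation preserving smooth diffeomorphisms of the circle, is non-zero in the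
fourth integral cohomology group of `M`. -/
theorem result :
    IsClosedCubical4Manifold M ∧ PosetConnected M ∧ IsOriented4 M ∧ EulerSquareNeZero bundle :=
  ⟨Cell.manifold _, resolution_connected _, cell_oriented _, euler_square⟩

end Pool.Agent.Results.MP_d4615f_gt.ExplicitFlatBundle
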